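import Pool.Agent.Helper5.N2.Stmts2

/-!
# Row CR0 of project N2 (MP_c4dbfc_gt): critical points of `g` with `ta = 0`
-/

set_option autoImplicit false
set_option linter.unusedSimpArgs false

namespace N17
open N2

/-- the last normalisation: the mixed second derivative relation in normalised variables -/
lemma cr0_final (k F g β c ε n : ℝ) (hk : 0 < k) (hF : 0 < F) (hg : 0 < g)
    (ht1 : 0 < 1 - k * g)
    (hDD : -(2 * k * (g * (k * F) * n) * (c * (g * (k * F) ^ 2)))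
        + (1 - k * g) * (ε * (g * (k * F) ^ 3) - k * F * (1 - k * g) * (c * (g * (k * F) ^ 2))
            + k ^ 2 * F * (g * (k * F) * β) ^ 2
            + ((k * F ^ 2 * (3 - 5 * (k * g))) ^ 2 - (c * (g * (k * F) ^ 2)) ^ 2) * F⁻¹
            - 2 * k ^ 2 * F ^ 2 * (g * (k * F) * n))
      = 3 * k * F * (k * F * (1 - k * g) * (g * (k * F) * n)
            - k * ((1 - 2 * (k * g)) * (g * (k * F) * β) ^ 2)
          + (g * (k * F) * β) ^ 2 * F⁻¹ * (F⁻¹ * (c * (g * (k * F) ^ 2)) - k * F * (1 - k * g)))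
        + 3 * k ^ 2 * F * ((1 - 2 * (k * g)) * (g * (k * F) * β) ^ 2
            + (1 - 2 * (k * g)) * (g * (k * F) * β) ^ 2)
        - 4 * k ^ 2 * F ^ 2 * ((3 * k * (g * (k * F) * n) / (1 - k * g)) * g * (1 - k * g)
            + (g * (k * F) * n) * ((1 - k * g) - k * g))
        + 2 * k * F * ((1 - 2 * (k * g)) * (3 * k * (1 - 2 * (k * g)) / (1 - k * g))
              * (g * (k * F) * β) ^ 2
            + (g * (k * F) * n) * (3 * k * (g * (k * F) * n) / (1 - k * g)))) :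
    -(2 * (k * g) * n * c) + (1 - k * g) * (ε - (1 - k * g) * c + k * g * β ^ 2
        + k * g * ((3 - 5 * (k * g)) ^ 2 / (k * g) ^ 2 - c ^ 2) - 2 * n)
      = 3 * (1 - k * g) * n + 3 * (k * g) * (1 - 2 * (k * g)) * β ^ 2 + 3 * (k * g) ^ 2 * β ^ 2 * c
        - 3 * (k * g) * (1 - k * g) * β ^ 2 - 4 * n * (1 + k * g)
        + (6 * (k * g) / (1 - k * g)) * ((1 - 2 * (k * g)) ^ 2 * β ^ 2 + n ^ 2) := by
  have hy : (1 - k * g) ≠ 0 := ht1.ne'
  have hF' := hF.ne'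
  have hg' := hg.ne'
  have hk' := hk.ne'
  have hX : g * (k * F) ^ 3 ≠ 0 := by positivity
  apply mul_left_cancel₀ hX
  have e1 : g * (k * F) ^ 3 * (-(2 * (k * g) * n * c) + (1 - k * g) * (ε - (1 - k * g) * c + k * g * β ^ 2
        + k * g * ((3 - 5 * (k * g)) ^ 2 / (k * g) ^ 2 - c ^ 2) - 2 * n))
      = -(2 * k * (g * (k * F) * n) * (c * (g * (k * F) ^ 2)))
        + (1 - k * g) * (ε * (g * (k * F) ^ 3) - k * F * (1 - k * g) * (c * (g * (k * F) ^ 2))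
            + k ^ 2 * F * (g * (k * F) * β) ^ 2
            + ((k * F ^ 2 * (3 - 5 * (k * g))) ^ 2 - (c * (g * (k * F) ^ 2)) ^ 2) * F⁻¹
            - 2 * k ^ 2 * F ^ 2 * (g * (k * F) * n)) := by
    field_simp
  rw [e1, hDD]
  field_simp
  ring

/-- Cauchy-Schwarz for complex vectors -/
lemma cs4 (a b : Fin 4 → ℂ) :
    ‖∑ i, a i * b i‖ ^ 2 ≤ (∑ i, ‖a i‖ ^ 2) * (∑ i, ‖b i‖ ^ 2) := by
  have h1 : ‖∑ i, a i * b i‖ ≤ ∑ i, ‖a i‖ * ‖b i‖ :=
    (norm_sum_le _ _).trans (le_of_eq (Finset.sum_congr rfl fun i _ => norm_mul _ _))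
  have h2 : (∑ i, ‖a i‖ * ‖b i‖) ^ 2 ≤ (∑ i, ‖a i‖ ^ 2) * (∑ i, ‖b i‖ ^ 2) :=
    Finset.sum_mul_sq_le_sq_mul_sq _ _ _
  exact (pow_le_pow_left₀ (norm_nonneg _) h1 2).trans h2

set_option maxHeartbeats 4000000 in
theorem st_CR0 (h1 : ST_G1) (h2 : ST_G2) (h3 : ST_G3) (h4 : ST_G4) (hP : ST_P) (hDD : ST_DD)
    (hGR : ST_GRAM) : ST_CR0 := by
  intro R _ _ N χ hP5 hk hal hg hV hy
  obtain ⟨cK, cG, cg, cy, hGF, DK, D'K, DB, D'A, hBB0, hABF, hAA0, hpsA, hpsB, DF, D'F, DG, D'G⟩ :=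
    h1 R 4 N
  obtain ⟨bA, bB, taA, taB, b'A, b'B, ta'A, ta'B, hq, hq', Dg, D'g, hal', hU', cV, hk1', hS', cBB,
    beA, beB, be'A, be'B⟩ := h2 R 4 N
  obtain ⟨-, -, -, -, -, -, -, -, D'q, Dq', -, -⟩ := h3 R 4 N
  obtain ⟨D'al, Dal', D'ph, -, -, -, -, hPhPh⟩ := h4 R 4 N
  obtain ⟨p1, p2, p3, p4, p5, p6, p7, p8, p9, p10, p11⟩ := hP R 4 N hP5
  -- real values
  have vK : χ N.K = (N.k : ℂ) := χ.hC _
  have vF0 : χ N.F = ((∑ i, ‖χ (N.A i)‖ ^ 2 : ℝ) : ℂ) := by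
    rw [← N.hAB]; exact χ.dot_cjv N.A
  have vg0 : χ N.g = ((∑ i, ‖χ (N.ps i)‖ ^ 2 : ℝ) : ℂ) := by
    have e : N.g = N2.dot N.ps (cjv N.ps) := by rw [N.hpr]; rfl
    rw [e]; exact χ.dot_cjv N.ps
  have vV0 : χ N.V = ((∑ i, ‖χ (N.ta i)‖ ^ 2 : ℝ) : ℂ) := χ.dot_cjv N.ta
  have vB0 : χ N.BB = ((∑ i, ‖χ (N.b i)‖ ^ 2 : ℝ) : ℂ) := χ.dot_cjv N.b
  have vE0 : χ (N2.dot N.be N.be') = ((∑ i, ‖χ (N.be i)‖ ^ 2 : ℝ) : ℂ) := χ.dot_cjv N.be
  have hta : ∀ i, χ (N.ta i) = 0 := by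
    rw [vV0] at hV
    have h0 : (∑ i, ‖χ (N.ta i)‖ ^ 2 : ℝ) = 0 := by exact_mod_cast hV
    intro i
    have h5 := (Finset.sum_eq_zero_iff_of_nonneg (fun j _ => sq_nonneg (‖χ (N.ta j)‖))).1 h0 i
      (Finset.mem_univ i)
    exact norm_eq_zero.1 (pow_eq_zero_iff (two_ne_zero) |>.1 h5)
  have hta' : ∀ i, χ (N.ta' i) = 0 := by
    intro i
    have e : N.ta' i = cj (N.ta i) := rfl
    rw [e, χ.hcj, hta, map_zero]
  have vU : χ N.U = 0 := by
    have e : N.U = N2.dot N.ta N.ta := rfl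
    rw [e, χ.dot]
    exact Finset.sum_eq_zero fun i _ => by rw [hta, zero_mul]
  have vk1 : χ N.k1 = 0 := by
    have e : N.k1 = N2.dot N.ta N.b := rfl
    rw [e, χ.dot]
    exact Finset.sum_eq_zero fun i _ => by rw [hta, zero_mul]
  have vta'be : χ (N2.dot N.ta' N.be) = 0 := by
    rw [χ.dot]
    exact Finset.sum_eq_zero fun i _ => by rw [hta', zero_mul]
  -- Cauchy-Schwarz
  have hCS : ‖χ N.q‖ ^ 2 ≤ (∑ i, ‖χ (N.ps i)‖ ^ 2 : ℝ) * (∑ i, ‖χ (N.b i)‖ ^ 2 : ℝ) := by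
    rw [hq, χ.dot]; exact cs4 _ _
  have hE0 : 0 ≤ (∑ i, ‖χ (N.be i)‖ ^ 2 : ℝ) := Finset.sum_nonneg fun i _ => sq_nonneg _
  have hg0 : 0 ≤ (∑ i, ‖χ (N.ps i)‖ ^ 2 : ℝ) := Finset.sum_nonneg fun i _ => sq_nonneg _
  have hF0 : 0 ≤ (∑ i, ‖χ (N.A i)‖ ^ 2 : ℝ) := Finset.sum_nonneg fun i _ => sq_nonneg _
  generalize (∑ i, ‖χ (N.A i)‖ ^ 2 : ℝ) = F at vF0 hF0
  generalize (∑ i, ‖χ (N.ps i)‖ ^ 2 : ℝ) = g at vg0 hg0 hCS
  generalize (∑ i, ‖χ (N.b i)‖ ^ 2 : ℝ) = Br at vB0 hCS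
  generalize (∑ i, ‖χ (N.be i)‖ ^ 2 : ℝ) = Er at vE0 hE0
  have hGF' : χ N.G * (F : ℂ) = 1 := by
    have h5 := congrArg χ.h hGF
    rw [map_mul, map_one, vF0] at h5; exact h5
  have hFne : F ≠ 0 := by
    rintro rfl
    rw [Complex.ofReal_zero, mul_zero] at hGF'
    exact zero_ne_one hGF'
  have hFpos : 0 < F := lt_of_le_of_ne hF0 (Ne.symm hFne)
  have vG : χ N.G = ((F⁻¹ : ℝ) : ℂ) := by
    rw [Complex.ofReal_inv]
    exact eq_inv_of_mul_eq_one_left hGF'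
  have hgne : g ≠ 0 := by
    rintro rfl
    rw [Complex.ofReal_zero] at vg0
    exact hg vg0
  have hgpos : 0 < g := lt_of_le_of_ne hg0 (Ne.symm hgne)
  have vy : χ N.y = ((1 - N.k * g : ℝ) : ℂ) := by
    have e : N.y = 1 - N.K * N.g := rfl
    rw [e, map_sub, map_one, map_mul, vK, vg0]; push_cast; ring
  have hy' : 0 < 1 - N.k * g := by rw [vy, Complex.ofReal_re] at hy; exact hy
  have hyne : χ N.y ≠ 0 := by
    rw [vy]; exact_mod_cast hy'.ne'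
  have val' : χ N.al' = 0 := by
    have e : N.al' = cj N.al := rfl
    rw [e, χ.hcj, hal, map_zero]
  have vph : χ N.ph = 0 := by
    have h5 := congrArg χ.h p1
    simp only [map_mul] at h5
    rw [hal, mul_zero] at h5
    exact (mul_eq_zero.1 h5).resolve_left hyne
  have vk1' : χ N.k1' = 0 := by
    have e : N.k1' = cj N.k1 := rfl
    rw [e, χ.hcj, vk1, map_zero]
  have vq' : χ N.q' = (starRingEnd ℂ) (χ N.q) := χ.hcj _
  have vS' : χ N.S' = (starRingEnd ℂ) (χ N.S) := χ.hcj _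
  have Dy : D N.y = -(2 * N.K * N.al) := by
    have e : N.y = 1 - N.K * N.g := rfl
    rw [e, D_sub, D_one, D_mul, DK, Dg]; ring
  have D'y : D' N.y = -(2 * N.K * N.al') := by
    have e : N.y = 1 - N.K * N.g := rfl
    rw [e, D'_sub, D'_one, D'_mul, D'K, D'g]; ring
  have hqq : χ N.q * (starRingEnd ℂ) (χ N.q) = ((‖χ N.q‖ ^ 2 : ℝ) : ℂ) := by
    rw [Complex.mul_conj, Complex.normSq_eq_norm_sq]
  have D2 : D (2 : R) = 0 := D_ofNat 2
  have D3 : D (3 : R) = 0 := D_ofNat 3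
  -- values of the derivatives
  have vDal : χ (D N.al) = ((1 - 2 * (N.k * g) : ℝ) : ℂ) * χ N.q := by
    have h5 := congrArg χ.h p4
    simp only [map_mul, map_add, map_sub, map_one, map_ofNat] at h5
    rw [h5, vU, vK, vg0]; push_cast; ring
  have vD'al : χ (D' N.al) = ((‖χ N.q‖ ^ 2 * F⁻¹ - N.k * F * (1 - N.k * g) * g : ℝ) : ℂ) := by
    have h5 := congrArg χ.h D'al
    simp only [map_mul, map_add, map_sub, map_one, map_ofNat] at h5
    rw [h5, hV, vK, vg0, vq', hqq, vG, vF0, vy]; push_cast; ring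
  have vPh : χ (N2.dot N.Ph N.Ph')
      = (((1 - N.k * g) ^ 2 * F + ‖χ N.q‖ ^ 2 * F⁻¹ : ℝ) : ℂ) := by
    have h5 := congrArg χ.h hPhPh
    simp only [map_mul, map_add, map_sub, map_one, map_ofNat] at h5
    rw [h5, hV, vq', hqq, vG, vF0, vy]; push_cast; ring
  have r5 : (1 - N.k * g) * Br = 3 * N.k * ‖χ N.q‖ ^ 2 - 2 * N.k ^ 2 * F ^ 2 * g * (1 - N.k * g) := by
    have h5 := congrArg χ.h p5
    simp only [map_mul, map_add, map_sub, map_one, map_ofNat] at h5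
    rw [hV, vph, vK, vg0, vq', vF0, vy, vB0] at h5
    have h6 : (((1 - N.k * g) * Br : ℝ) : ℂ)
        = ((3 * N.k * ‖χ N.q‖ ^ 2 - 2 * N.k ^ 2 * F ^ 2 * g * (1 - N.k * g) : ℝ) : ℂ) := by
      push_cast at h5 hqq ⊢
      linear_combination h5 + 3 * (N.k : ℂ) * hqq
    exact_mod_cast h6
  have yDph : χ N.y * χ (D N.ph) = 3 * (N.k : ℂ) * χ (D N.al) := by
    have h5 := congrArg (fun x => χ.h (D x)) p1
    simp only [D_mul, map_mul, map_add, map_sub, map_one, map_ofNat, Dy, DK, map_neg, map_zero,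
      D_ofNat] at h5
    rw [vph, vK, hal] at h5
    linear_combination h5
  have yD'ph : χ N.y * χ (D' N.ph) = 3 * (N.k : ℂ) * χ (D' N.al) := by
    have h5 := congrArg (fun x => χ.h (D' x)) p1
    simp only [D'_mul, map_mul, map_add, map_sub, map_one, map_ofNat, D'y, D'K, map_neg, map_zero,
      D'_ofNat] at h5
    rw [vph, vK, hal] at h5
    linear_combination h5
  have vb'be : χ (N2.dot N.b' N.be) = 0 := by
    have h5 := congrArg (fun x => χ.h (D x)) p5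
    simp only [D_mul, D_add, D_sub, map_mul, map_add, map_sub, map_one, map_ofNat, Dy, DK, map_neg,
      map_zero, D2, D3, p8, p9, p2, Dq', DF, Dg] at h5
    rw [vph, hal, val', vk1, hV] at h5
    have h6 : χ N.y * χ (N2.dot N.b' N.be) = 0 := by linear_combination h5
    exact (mul_eq_zero.1 h6).resolve_left hyne
  have vbbe' : χ (N2.dot N.b N.be') = 0 := by
    have e : N2.dot N.b N.be' = cj (N2.dot N.b' N.be) := by
      rw [cj_dot, Nt.b', cjv_cjv, Nt.be']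
    rw [e, χ.hcj, vb'be, map_zero]
  have vpsbe : χ (N2.dot N.ps N.be) = 0 := by
    rw [p6, map_sub, map_mul, map_mul, vph, vk1]; ring
  have vpsbe' : χ (N2.dot N.ps N.be') = 0 := by
    have e : N2.dot N.ps N.be' = cj (N2.dot N.ps N.be) := by
      rw [cj_dot, N.hpr, Nt.be']
    rw [e, χ.hcj, vpsbe, map_zero]
  -- Gram determinants
  have hAA' : ∑ i, χ (N.A i) * χ (N.A i) = 0 := by rw [← χ.dot, hAA0, map_zero]
  have hBB' : ∑ i, χ (N.B i) * χ (N.B i) = 0 := by rw [← χ.dot, hBB0, map_zero]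
  have hAB' : ∑ i, χ (N.A i) * χ (N.B i) ≠ 0 := by
    rw [← χ.dot, hABF, vF0]; exact_mod_cast hFne
  have g1 := hGR (fun i => χ (N.A i)) (fun i => χ (N.B i)) (fun i => χ (N.ps i)) (fun i => χ (N.b i))
    (fun i => χ (N.b' i)) (fun i => χ (N.ps i)) (fun i => χ (N.b i)) (fun i => χ (N.b' i))
    hAA' hBB' hAB' (by
      intro v hv
      simp only [List.mem_cons, List.not_mem_nil, or_false] at hv
      rcases hv with rfl | rfl | rfl | rfl | rfl | rfl <;> simp only [← χ.dot, hpsA, hpsB, bA, bB,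
        b'A, b'B, map_zero, and_self])
  have g2 := hGR (fun i => χ (N.A i)) (fun i => χ (N.B i)) (fun i => χ (N.ps i)) (fun i => χ (N.b i))
    (fun i => χ (N.be i)) (fun i => χ (N.ps i)) (fun i => χ (N.b' i)) (fun i => χ (N.be' i))
    hAA' hBB' hAB' (by
      intro v hv
      simp only [List.mem_cons, List.not_mem_nil, or_false] at hv
      rcases hv with rfl | rfl | rfl | rfl | rfl | rfl <;> simp only [← χ.dot, hpsA, hpsB, bA, bB,
        b'A, b'B, beA, beB, be'A, be'B, map_zero, and_self])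
  simp only [← χ.dot] at g1 g2
  rw [N2.dot_comm N.b N.ps, N2.dot_comm N.b' N.ps, N2.dot_comm N.b' N.b, ← hq, ← hq'] at g1
  rw [N2.dot_comm N.b N.ps, N2.dot_comm N.be N.ps, N2.dot_comm N.be N.b', ← hq, ← hq', vpsbe,
    vpsbe', vb'be, vbbe', vE0] at g2
  have eg : N2.dot N.ps N.ps = N.g := rfl
  have eS : N2.dot N.b N.b = N.S := rfl
  have eB : N2.dot N.b N.b' = N.BB := rfl
  rw [eg, eS, eB, ← hS', vg0, vB0, vq', vS'] at g1
  rw [eg, eB, vg0, vB0, vq'] at g2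
  have g2r : Er * (g * Br - ‖χ N.q‖ ^ 2) = 0 := by
    have h6 : ((Er * (g * Br - ‖χ N.q‖ ^ 2) : ℝ) : ℂ) = ((0 : ℝ) : ℂ) := by
      push_cast at g2 hqq ⊢
      linear_combination g2 + (Er : ℂ) * hqq
    exact_mod_cast h6
  -- normalised quantities
  have hkF : 0 < N.k * F := mul_pos hk hFpos
  have hs : 0 < g * (N.k * F) := mul_pos hgpos hkF
  have hX2 : 0 < g * (N.k * F) ^ 2 := by positivity
  have hX3 : 0 < g * (N.k * F) ^ 3 := by positivity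
  obtain ⟨β, hβ⟩ : ∃ β, β = ‖χ N.q‖ / (g * (N.k * F)) := ⟨_, rfl⟩
  obtain ⟨c, hc⟩ : ∃ c, c = Br / (g * (N.k * F) ^ 2) := ⟨_, rfl⟩
  obtain ⟨ε, hε⟩ : ∃ ε, ε = Er / (g * (N.k * F) ^ 3) := ⟨_, rfl⟩
  obtain ⟨n, hn⟩ : ∃ n, n = N.k * g * β ^ 2 - (1 - N.k * g) := ⟨_, rfl⟩
  have eQ : ‖χ N.q‖ = g * (N.k * F) * β := by rw [hβ]; field_simp
  have eBr : Br = c * (g * (N.k * F) ^ 2) := by rw [hc]; field_simp
  have eEr : Er = ε * (g * (N.k * F) ^ 3) := by rw [hε]; field_simp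
  have hβ0 : 0 ≤ β := by rw [hβ]; positivity
  have hε0 : 0 ≤ ε := by rw [hε]; positivity
  have hk' := hk.ne'
  have vD'al2 : χ (D' N.al) = ((g * (N.k * F) * n : ℝ) : ℂ) := by
    rw [vD'al, eQ, hn]
    congr 1
    field_simp
  have hβc : β ^ 2 ≤ c := by
    rw [eQ, eBr] at hCS
    have h6 : (g * (N.k * F)) ^ 2 * β ^ 2 ≤ (g * (N.k * F)) ^ 2 * c := by nlinarith [hCS]
    exact le_of_mul_le_mul_left h6 (by positivity)
  refine ⟨N.k * g, n, g * (N.k * F), β, c, ε, ?_, mul_pos hk hgpos, by linarith, hβ0, hβc, hε0, hn,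
    ?_, hs, ?_, ?_, ?_, ?_⟩
  · rw [vg0, Complex.ofReal_re]
  · rw [eQ, eBr] at r5
    have h6 : g * (N.k * F) ^ 2 * ((1 - N.k * g) * c)
        = g * (N.k * F) ^ 2 * (3 * (N.k * g) * β ^ 2 - 2 * (1 - N.k * g)) := by
      linear_combination r5
    exact mul_left_cancel₀ hX2.ne' h6
  · rw [vD'al2, Complex.ofReal_re]
  · rw [vDal, norm_mul, Complex.norm_real, Real.norm_eq_abs, eQ]; ring
  · rw [vPh, vF0, Complex.ofReal_re, Complex.ofReal_re, eQ, hn]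
    field_simp
    ring
  · by_cases hq0 : χ N.q = 0
    · left
      rw [hβ, hq0, norm_zero, zero_div]
    right
    have hq0' : (starRingEnd ℂ) (χ N.q) ≠ 0 := by
      intro h6; exact hq0 ((map_eq_zero _).1 h6)
    -- P7
    have r7 : (starRingEnd ℂ) (χ N.q) * χ N.S
        = ((N.k * F ^ 2 * (3 - 5 * (N.k * g)) : ℝ) : ℂ) * χ N.q := by
      have h5 := congrArg χ.h p7
      simp only [map_mul, map_add, map_sub, map_one, map_ofNat] at h5
      rw [vph, vta'be, hal, vDal, vK, vq', vF0, vy, vG] at h5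
      have hFi : (F : ℂ) * ((F⁻¹ : ℝ) : ℂ) = 1 := by
        rw [← Complex.ofReal_mul, mul_inv_cancel₀ hFne, Complex.ofReal_one]
      push_cast at h5 hFi ⊢
      linear_combination (F : ℂ) * h5 - (starRingEnd ℂ) (χ N.q) * χ N.S * hFi
    have r7' : χ N.q * (starRingEnd ℂ) (χ N.S)
        = ((N.k * F ^ 2 * (3 - 5 * (N.k * g)) : ℝ) : ℂ) * (starRingEnd ℂ) (χ N.q) := by
      have h5 := congrArg (starRingEnd ℂ) r7
      rw [map_mul, map_mul, Complex.conj_conj, Complex.conj_ofReal] at h5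
      exact h5
    have rSS : χ N.S * (starRingEnd ℂ) (χ N.S)
        = (((N.k * F ^ 2 * (3 - 5 * (N.k * g))) ^ 2 : ℝ) : ℂ) := by
      have h6 : (χ N.q * (starRingEnd ℂ) (χ N.q)) * (χ N.S * (starRingEnd ℂ) (χ N.S))
          = (χ N.q * (starRingEnd ℂ) (χ N.q)) * (((N.k * F ^ 2 * (3 - 5 * (N.k * g))) ^ 2 : ℝ) : ℂ) := by
        push_cast at r7 r7' ⊢
        linear_combination (χ N.q * (starRingEnd ℂ) (χ N.S)) * r7
          + (((N.k : ℂ) * (F : ℂ) ^ 2 * (3 - 5 * ((N.k : ℂ) * (g : ℂ)))) * χ N.q) * r7'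
      exact mul_left_cancel₀ (mul_ne_zero hq0 hq0') h6
    have g1r : (N.k * F ^ 2 * (3 - 5 * (N.k * g)) - Br)
        * (g * (N.k * F ^ 2 * (3 - 5 * (N.k * g)) + Br) - 2 * ‖χ N.q‖ ^ 2) = 0 := by
      have h6 : (((N.k * F ^ 2 * (3 - 5 * (N.k * g)) - Br)
        * (g * (N.k * F ^ 2 * (3 - 5 * (N.k * g)) + Br) - 2 * ‖χ N.q‖ ^ 2) : ℝ) : ℂ) = ((0 : ℝ) : ℂ) := by
        push_cast at g1 hqq r7 r7' rSS ⊢
        linear_combination g1 - (g : ℂ) * rSS + χ N.q * r7' + (starRingEnd ℂ) (χ N.q) * r7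
          + (2 * ((N.k : ℂ) * (F : ℂ) ^ 2 * (3 - 5 * ((N.k : ℂ) * (g : ℂ)))) - 2 * (Br : ℂ)) * hqq
      exact_mod_cast h6
    refine ⟨?_, ?_, ?_⟩
    · rcases mul_eq_zero.1 g1r with h6 | h6
      · left
        rw [eBr] at h6
        have h7 : N.k * F ^ 2 * (N.k * g * c) = N.k * F ^ 2 * (3 - 5 * (N.k * g)) := by
          linear_combination -h6
        exact mul_left_cancel₀ (by positivity) h7
      · right
        rw [eBr, eQ] at h6
        have h7 : g * N.k * F ^ 2 * (N.k * g * c + (3 - 5 * (N.k * g)))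
            = g * N.k * F ^ 2 * (2 * (N.k * g) * β ^ 2) := by
          linear_combination h6
        exact mul_left_cancel₀ (by positivity) h7
    · rcases mul_eq_zero.1 g2r with h6 | h6
      · left; rw [hε, h6, zero_div]
      · right
        rw [eBr, eQ] at h6
        have h7 : (g * (N.k * F)) ^ 2 * c = (g * (N.k * F)) ^ 2 * β ^ 2 := by
          linear_combination h6
        exact mul_left_cancel₀ (by positivity) h7
    · have vDph : χ (D N.ph) = ((3 * N.k * (1 - 2 * (N.k * g)) / (1 - N.k * g) : ℝ) : ℂ) * χ N.q := by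
        apply mul_left_cancel₀ hyne
        have e : (1 - N.k * g) * (3 * N.k * (1 - 2 * (N.k * g)) / (1 - N.k * g))
            = 3 * N.k * (1 - 2 * (N.k * g)) := by field_simp
        have e2 : ((1 - N.k * g : ℝ) : ℂ) * ((3 * N.k * (1 - 2 * (N.k * g)) / (1 - N.k * g) : ℝ) : ℂ)
            = ((3 * N.k * (1 - 2 * (N.k * g)) : ℝ) : ℂ) := by
          rw [← Complex.ofReal_mul, e]
        rw [yDph, vDal, vy]
        generalize ((3 * N.k * (1 - 2 * (N.k * g)) / (1 - N.k * g) : ℝ) : ℂ) = w at e2 ⊢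
        push_cast at e2 ⊢
        linear_combination -(χ N.q) * e2
      have vD'ph : χ (D' N.ph) = ((3 * N.k * (g * (N.k * F) * n) / (1 - N.k * g) : ℝ) : ℂ) := by
        apply mul_left_cancel₀ hyne
        rw [yD'ph, vD'al2, vy, ← Complex.ofReal_mul]
        have e : (1 - N.k * g) * (3 * N.k * (g * (N.k * F) * n) / (1 - N.k * g))
            = 3 * N.k * (g * (N.k * F) * n) := by field_simp
        rw [e]; push_cast; ring
      have hd := hDD R 4 N χ hP5 hal hyne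
      rw [vE0, vDph, vD'ph, vD'al2, vDal, hV, vU, vq', vS', vK, vF0, vg0, vB0, vy, vG, rSS,
        map_mul, Complex.conj_ofReal] at hd
      apply cr0_final N.k F g β c ε n hk hFpos hgpos hy'
      rw [← eQ, ← eBr, ← eEr]
      rw [← Complex.ofReal_inj]
      push_cast at hd hqq ⊢
      linear_combination hd - ((1 - (N.k : ℂ) * (g : ℂ)) * (N.k : ℂ) ^ 2 * (F : ℂ)
        - (3 * (N.k : ℂ) * (F : ℂ) * (-((N.k : ℂ) * (1 - 2 * ((N.k : ℂ) * (g : ℂ))))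
            + (F : ℂ)⁻¹ * ((F : ℂ)⁻¹ * (Br : ℂ) - (N.k : ℂ) * (F : ℂ) * (1 - (N.k : ℂ) * (g : ℂ))))
          + 6 * (N.k : ℂ) ^ 2 * (F : ℂ) * (1 - 2 * ((N.k : ℂ) * (g : ℂ)))
          + 2 * (N.k : ℂ) * (F : ℂ) * ((1 - 2 * ((N.k : ℂ) * (g : ℂ)))
            * (3 * (N.k : ℂ) * (1 - 2 * ((N.k : ℂ) * (g : ℂ))) / (1 - (N.k : ℂ) * (g : ℂ)))))) * hqq

end N17
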